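import Pool.Agent.H71.CW.Top

/-! Board cwf_modules, row TP1. -/

set_option autoImplicit false

open Set

namespace Pool.Agent.H92.CW.TP1

open Pool.Agent.CW

private theorem dv_map (Y Z : Type) [TopologicalSpace Y] [TopologicalSpace Z] (h : Y ≃ₜ Z)
    (n : ℕ) : ∀ p, p ∈ Dv Y n → h p ∈ Dv Z n := by
  induction n with
  | zero => intro p _; exact mem_univ _
  | succ n ih =>
    rintro p ⟨hp, hU⟩
    refine ⟨ih p hp, fun U hUo hpU => ?_⟩
    obtain ⟨q, hqU, hqp, hq⟩ := hU (h ⁻¹' U) (hUo.preimage h.continuous) hpU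
    exact ⟨h q, hqU, fun h1 => hqp (h.injective h1), ih q hq⟩

private theorem dv_iff (Y Z : Type) [TopologicalSpace Y] [TopologicalSpace Z] (h : Y ≃ₜ Z)
    (n : ℕ) (p : Y) : h p ∈ Dv Z n ↔ p ∈ Dv Y n := by
  constructor
  · intro h1
    have h2 := dv_map Z Y h.symm n (h p) h1
    simpa using h2
  · exact dv_map Y Z h n p

private theorem smo_map (Y Z : Type) [TopologicalSpace Y] [TopologicalSpace Z] (h : Y ≃ₜ Z)
    (n : ℕ) (p : Y) (hs : Smo Y n p) : Smo Z n (h p) := by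
  obtain ⟨U, hU, hp, hq⟩ := hs
  refine ⟨h.symm ⁻¹' U, hU.preimage h.symm.continuous, by simpa using hp, fun q hqU hqn => ?_⟩
  have h1 : h.symm q ∈ Dv Y n := dv_map Z Y h.symm n q hqn
  have h2 := hq (h.symm q) hqU h1
  have h3 := dv_map Y Z h (n + 1) _ h2
  simpa using h3

private theorem smo_iff (Y Z : Type) [TopologicalSpace Y] [TopologicalSpace Z] (h : Y ≃ₜ Z)
    (n : ℕ) (p : Y) : Smo Z n (h p) ↔ Smo Y n p := by
  constructor
  · intro h1
    have h2 := smo_map Z Y h.symm n (h p) h1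
    simpa using h2
  · exact smo_map Y Z h n p

private theorem dps_sub (Y Z : Type) [TopologicalSpace Y] [TopologicalSpace Z] (h : Y ≃ₜ Z) :
    Dps Y ⊆ Dps Z := by
  rintro n ⟨p, hp, hs, hm⟩
  exact ⟨h p, dv_map Y Z h n p hp, smo_map Y Z h n p hs,
    fun m hmn h1 => hm m hmn ((smo_iff Y Z h m p).1 h1)⟩

end Pool.Agent.H92.CW.TP1

namespace Pool.Agent.CW

theorem pf_TP1 : TP1 := by
  rintro Y Z _ _ ⟨h⟩
  exact Set.Subset.antisymm (Pool.Agent.H92.CW.TP1.dps_sub Y Z h)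
    (Pool.Agent.H92.CW.TP1.dps_sub Z Y h.symm)

end Pool.Agent.CW
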