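import Pool.Agent.H76.CW.StmtB

/-! Board cw_modules, row DEC. -/

set_option autoImplicit false

open Set Pool.Agent.TK Pool.Agent.H71.VK

namespace Pool.Agent.CW

private theorem h92_reps (f : ℕ → Ty) (Q : Set ℕ) (hf : {t : Ty | ∃ x, f x = t}.Finite) :
    ∃ E : List ℕ, (∀ r ∈ E, r ∈ Q) ∧ ∀ x ∈ Q, ∃ r ∈ E, f r = f x := by
  classical
  have hfin : (f '' Q).Finite := hf.subset (by
    rintro t ⟨x, -, rfl⟩
    exact ⟨x, rfl⟩)
  obtain ⟨s, hs1, hs2⟩ := Finset.subset_set_image_iff.1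
    (show ((hfin.toFinset : Finset Ty) : Set Ty) ⊆ f '' Q by simp)
  refine ⟨s.toList, fun r hr => hs1 (by simpa using hr), fun x hx => ?_⟩
  have h1 : f x ∈ s.image f := by
    rw [hs2]
    simpa using ⟨x, hx, rfl⟩
  obtain ⟨r, hr, hrx⟩ := Finset.mem_image.1 h1
  exact ⟨r, by simpa using hr, hrx⟩

/-- one side: `Q` is closed for the table `F` -/
private theorem h92_side {n : ℕ} {c : ℕ → ℕ → ℕ} {Sm : Pr → Prop} (G : GS n c Sm) (π : Pr)
    (hv : Vd c π) (S : List ℕ) (F : Tab) (Q : Set ℕ) (hSP : ∀ a ∈ S, a ∈ st c π)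
    (hQ : Q ⊆ st c π)
    (hF : ∀ x ∈ Q, x ∉ S → ∀ y ∈ st c π, y ∉ Q → y ∉ S →
        ee c x y = lk F (tp c (S ++ zl π) x) (tp c (S ++ zl π) y))
    (hno : ∀ s : Stp, Vd c (s :: π) → st c (s :: π) ⊆ Q → G.Nn (st c (s :: π))) :
    ∀ x ∈ Q, x ∉ S → ∀ r ∈ Q, r ∉ S → tp c (S ++ zl π) r = tp c (S ++ zl π) x →
      G.Nn (df c (st c π) x r) := by
  have key : ∀ x ∈ Q, x ∉ S → G.Nn (cl c (st c π) (S ++ zl π) F x) := by
    intro x hx hxS
    have hvd : Vd c ((S, F, x, true) :: π) := ⟨hv, hSP, hQ hx, hxS⟩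
    refine hno (S, F, x, true) hvd ?_
    rw [st_true]
    have h1 : cl c (st c π) (S ++ zl π) F x ⊆ {y | y ∈ Q ∧ y ∉ S} := by
      refine cl_min ⟨hx, hxS⟩ ?_
      rintro u ⟨huQ, huS⟩ v hvP hvL hA
      have hvS : v ∉ S := fun h => hvL (List.mem_append_left _ h)
      refine ⟨?_, hvS⟩
      by_contra hvQ
      exact hA (hF u huQ huS v hvP hvQ hvS)
    exact fun y hy => (h1 hy).1
  intro x hx hxS r hr hrS hrx
  refine (((key x hx hxS).union (key r hr hrS)).union (G.nn_list S)).mono ?_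
  rintro y ⟨hyP, hne⟩
  by_contra hcon
  have hcon' : y ∉ cl c (st c π) (S ++ zl π) F x ∧ y ∉ cl c (st c π) (S ++ zl π) F r ∧
      y ∉ S := by
    refine ⟨fun h => hcon (Or.inl (Or.inl h)), fun h => hcon (Or.inl (Or.inr h)),
      fun h => hcon (Or.inr h)⟩
  have hyL : y ∉ S ++ zl π := by
    rw [List.mem_append]
    rintro (h | h)
    · exact hcon'.2.2 h
    · exact zl_disj hv y h hyP
  apply hne
  rw [cl_out (self_mem_cl (x := x)) hyP hyL hcon'.1, cl_out (self_mem_cl (x := r)) hyP hyL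
    hcon'.2.1, hrx]

theorem pf_DEC (hFIX : T_FIX) (hFTY : T_FTY) (hCON : T_CON) : T_DEC := by
  intro n c Sm G π hv hgood m A hAP hfew
  obtain ⟨S, F, F', hSP, hF, hF'⟩ := hFIX n c G.bd (st c π) A (zl π) m hAP hfew
  by_contra hno
  push Not at hno
  have hn1 : ∀ s : Stp, Vd c (s :: π) → st c (s :: π) ⊆ A → G.Nn (st c (s :: π)) := by
    intro s hs hsub
    by_contra h
    exact (hno s hs h).1 hsub
  have hn2 : ∀ s : Stp, Vd c (s :: π) → st c (s :: π) ⊆ st c π \ A → G.Nn (st c (s :: π)) := by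
    intro s hs hsub
    by_contra h
    exact (hno s hs h).2 (Set.disjoint_left.2 fun y hy => (hsub hy).2)
  have g1 := h92_side G π hv S F A hSP hAP hF hn1
  have g2 := h92_side G π hv S F' (st c π \ A) hSP Set.sdiff_subset (by
    rintro x ⟨hxP, hxA⟩ hxS y hyP hyQ hyS
    have hyA : y ∈ A := by
      by_contra h
      exact hyQ ⟨hyP, h⟩
    exact hF' x hxP hxA hxS y hyA hyS) hn2
  have hT := hFTY n c G.bd (S ++ zl π)
  obtain ⟨E1, hE1, hE1'⟩ := h92_reps (tp c (S ++ zl π)) {x | x ∈ A ∧ x ∉ S} hT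
  obtain ⟨E2, hE2, hE2'⟩ := h92_reps (tp c (S ++ zl π)) {x | x ∈ st c π \ A ∧ x ∉ S} hT
  refine hCON n c Sm G π hv hgood (S ++ (E1 ++ E2)) ?_ ?_
  · intro x hx
    rcases List.mem_append.1 hx with h | h
    · exact hSP x h
    · rcases List.mem_append.1 h with h | h
      · exact hAP (hE1 x h).1
      · exact (hE2 x h).1.1
  · intro x hx
    by_cases hxS : x ∈ S
    · refine ⟨x, List.mem_append_left _ hxS, ?_⟩
      refine G.nn_empty.mono ?_
      rintro y ⟨-, h⟩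
      exact absurd rfl h
    · by_cases hxA : x ∈ A
      · obtain ⟨r, hr, hrx⟩ := hE1' x ⟨hxA, hxS⟩
        exact ⟨r, List.mem_append_right _ (List.mem_append_left _ hr),
          g1 x hxA hxS r (hE1 r hr).1 (hE1 r hr).2 hrx⟩
      · obtain ⟨r, hr, hrx⟩ := hE2' x ⟨⟨hx, hxA⟩, hxS⟩
        exact ⟨r, List.mem_append_right _ (List.mem_append_right _ hr),
          g2 x ⟨hx, hxA⟩ hxS r (hE2 r hr).1 (hE2 r hr).2 hrx⟩

end Pool.Agent.CW
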